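import Mathlib
import Pool.Agent.Helper65.MT.St

/-!
# Project MT (MP_edbc81_nt), module RC: size of the coefficients at the nodes 0, ..., k
-/

set_option autoImplicit false

open Finset Pool.Agent.Helper16 Pool.Agent.Helper65.MT PowerSeries

namespace Pool.Agent.Helper19.MT

/-- The product of the distances from node `j` to the other nodes. -/
theorem prod_nodes (k : ℕ) (j : Fin (k + 1)) :
    ∏ i ∈ Finset.univ.erase j, |(((j : ℕ) : ℤ) : ℝ) - (((i : ℕ) : ℤ) : ℝ)| =
      ((j : ℕ).factorial : ℝ) * ((k - (j : ℕ)).factorial : ℝ) := by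
  set f : ℕ → ℝ := fun m => if m = (j : ℕ) then (1 : ℝ) else |((j : ℕ) : ℝ) - (m : ℝ)| with hf
  have h0 : ∏ i ∈ Finset.univ.erase j, |(((j : ℕ) : ℤ) : ℝ) - (((i : ℕ) : ℤ) : ℝ)| =
      ∏ i : Fin (k + 1), f i := by
    rw [← Finset.mul_prod_erase _ _ (Finset.mem_univ j)]
    have h1 : f (j : ℕ) = 1 := by simp [hf]
    rw [h1, one_mul]
    refine Finset.prod_congr rfl fun i hi => ?_
    have h2 : (i : ℕ) ≠ (j : ℕ) := fun h => (Finset.mem_erase.1 hi).1 (Fin.ext h)
    simp [hf, h2]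
  have hj : (j : ℕ) ≤ k := Nat.lt_succ_iff.1 j.2
  have h3 : Finset.range (k + 1) = Finset.range ((j : ℕ) + ((k - (j : ℕ)) + 1)) := by
    congr 1
    omega
  rw [h0, Fin.prod_univ_eq_prod_range f (k + 1), h3, Finset.prod_range_add,
    Finset.prod_range_succ']
  have h4 : ∏ x ∈ Finset.range (j : ℕ), f x = ((j : ℕ).factorial : ℝ) := by
    rw [← Finset.prod_range_add_one_eq_factorial, ← Finset.prod_range_reflect]
    push_cast
    refine Finset.prod_congr rfl fun x hx => ?_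
    rw [Finset.mem_range] at hx
    have h5 : (j : ℕ) - 1 - x ≠ (j : ℕ) := by omega
    have h6 : (((j : ℕ) - 1 - x : ℕ) : ℝ) = ((j : ℕ) : ℝ) - 1 - x := by
      rw [Nat.cast_sub (by omega), Nat.cast_sub (by omega)]
      simp
    have h7 : (x : ℝ) ≤ ((j : ℕ) : ℝ) := by exact_mod_cast hx.le
    simp only [hf, h5, if_false]
    rw [h6, abs_of_nonneg (by linarith)]
    ring
  have h8 : ∏ x ∈ Finset.range (k - (j : ℕ)), f ((j : ℕ) + (x + 1)) =
      ((k - (j : ℕ)).factorial : ℝ) := by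
    rw [← Finset.prod_range_add_one_eq_factorial]
    push_cast
    refine Finset.prod_congr rfl fun x _ => ?_
    have h5 : (j : ℕ) + (x + 1) ≠ (j : ℕ) := by omega
    simp only [hf, h5, if_false]
    push_cast
    have h9 : ((j : ℕ) : ℝ) - (((j : ℕ) : ℝ) + ((x : ℝ) + 1)) = -((x : ℝ) + 1) := by ring
    rw [h9, abs_neg, abs_of_nonneg (by positivity)]
  have h10 : f ((j : ℕ) + 0) = 1 := by simp [hf]
  rw [h4, h8, h10, mul_one]

theorem maj_G' {d : ℝ} (hd : 1 ≤ |d|) :
    Maj (G d) (PowerSeries.C (|d|⁻¹) * PowerSeries.mk 1) := by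
  intro k
  rw [coeff_G, PowerSeries.coeff_C_mul, PowerSeries.coeff_mk, abs_div, abs_pow, abs_neg, abs_one,
    one_pow, abs_pow]
  simp only [Pi.one_apply, mul_one]
  rw [one_div]
  refine inv_anti₀ (by positivity) ?_
  calc |d| = |d| ^ 1 := (pow_one _).symm
    _ ≤ |d| ^ (k + 1) := pow_le_pow_right₀ hd (by omega)

theorem coeff_B_le {N : ℕ} (x : Fin N → ℝ) (L : Fin N → ℕ) (j : Fin N)
    (hx : ∀ i, i ≠ j → 1 ≤ |x j - x i|) (c : ℕ) :
    |coeff c (B x L j)| ≤ (∏ i ∈ Finset.univ.erase j, (|x j - x i|⁻¹) ^ L i) *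
      2 ^ (∑ i ∈ Finset.univ.erase j, L i + c) := by
  have h1 : Maj (B x L j)
      (∏ i ∈ Finset.univ.erase j, (PowerSeries.C (|x j - x i|⁻¹) * PowerSeries.mk 1) ^ L i) := by
    unfold B
    refine Maj.prod _ _ _ fun i hi => ?_
    exact (maj_G' (hx i (Finset.ne_of_mem_erase hi))).pow _
  have h2 : ∏ i ∈ Finset.univ.erase j,
      ((PowerSeries.C (|x j - x i|⁻¹) : ℝ⟦X⟧) * PowerSeries.mk 1) ^ L i =
      PowerSeries.C (∏ i ∈ Finset.univ.erase j, (|x j - x i|⁻¹) ^ L i) *
        (PowerSeries.mk 1) ^ (∑ i ∈ Finset.univ.erase j, L i) := by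
    simp only [mul_pow, Finset.prod_mul_distrib, Finset.prod_pow_eq_pow_sum, map_prod, map_pow]
  have h3 := h1 c
  rw [h2, PowerSeries.coeff_C_mul] at h3
  refine h3.trans (mul_le_mul_of_nonneg_left (coeff_mk_one_pow_le _ _) ?_)
  exact Finset.prod_nonneg fun i _ => by positivity

theorem m_RC : StRC := by
  intro k p n hp js j
  set x : Fin (k + 1) → ℝ := fun i => (((i : ℕ) : ℤ) : ℝ) with hxd
  set L : Fin (k + 1) → ℕ := fun j => if j = js then p + 1 else p with hL
  have hx1 : ∀ i, i ≠ j → 1 ≤ |x j - x i| := by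
    intro i hi
    have h1 : ((j : ℕ) : ℤ) - ((i : ℕ) : ℤ) ≠ 0 := by
      intro h
      apply hi
      ext
      omega
    have h2 := Int.one_le_abs h1
    simp only [hxd]
    exact_mod_cast h2
  have hLp : ∀ i, p ≤ L i := by
    intro i
    simp only [hL]
    split_ifs <;> omega
  have hsum : ∑ i, L i = (k + 1) * p + 1 := by
    have h1 : ∀ i, L i = p + if i = js then 1 else 0 := by
      intro i
      simp only [hL]
      split_ifs <;> rfl
    rw [Finset.sum_congr rfl fun i _ => h1 i, Finset.sum_add_distrib]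
    simp
  have hse := sum_erase_add L j
  set P : ℝ := ∏ i ∈ Finset.univ.erase j, |x j - x i| with hP
  have hPe : P = ((j : ℕ).factorial : ℝ) * ((k - (j : ℕ)).factorial : ℝ) := prod_nodes k j
  have hP0 : 0 < P := by rw [hPe]; positivity
  -- the bound for the coefficients of `B`
  have hB : ∀ c ≤ L j - 1, |coeff c (B x L j)| ≤ (P⁻¹) ^ p * 2 ^ ((k + 1) * p) := by
    intro c hc
    refine (coeff_B_le x L j hx1 c).trans ?_
    have h1 : ∏ i ∈ Finset.univ.erase j, (|x j - x i|⁻¹) ^ L i ≤ (P⁻¹) ^ p := by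
      rw [hP, ← Finset.prod_inv_distrib, ← Finset.prod_pow]
      refine Finset.prod_le_prod (fun i _ => by positivity) fun i hi => ?_
      have h2 := hx1 i (Finset.ne_of_mem_erase hi)
      refine pow_le_pow_of_le_one (by positivity) ?_ (hLp i)
      exact inv_le_one_of_one_le₀ h2
    have h3 : (2 : ℝ) ^ (∑ i ∈ Finset.univ.erase j, L i + c) ≤ 2 ^ ((k + 1) * p) := by
      refine pow_le_pow_right₀ (by norm_num) ?_
      have := hLp j
      omega
    exact mul_le_mul h1 h3 (by positivity) (by positivity)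
  have hA : |A x L n j| ≤ (P⁻¹) ^ p * 2 ^ ((k + 1) * p) * Real.exp n := by
    unfold A
    refine (Finset.abs_sum_le_sum_abs _ _).trans ?_
    have h1 : ∀ a ∈ Finset.HasAntidiagonal.antidiagonal (L j - 1),
        |(n : ℝ) ^ a.1 / (a.1.factorial : ℝ) * coeff a.2 (B x L j)| ≤
          (P⁻¹) ^ p * 2 ^ ((k + 1) * p) * ((n : ℝ) ^ a.1 / (a.1.factorial : ℝ)) := by
      intro a ha
      rw [Finset.HasAntidiagonal.mem_antidiagonal] at ha
      rw [abs_mul, abs_of_nonneg (by positivity : (0 : ℝ) ≤ (n : ℝ) ^ a.1 / (a.1.factorial : ℝ)),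
        mul_comm]
      exact mul_le_mul_of_nonneg_right (hB a.2 (by omega)) (by positivity)
    refine (Finset.sum_le_sum h1).trans ?_
    rw [← Finset.mul_sum]
    refine mul_le_mul_of_nonneg_left ?_ (by positivity)
    rw [Finset.Nat.sum_antidiagonal_eq_sum_range_succ_mk]
    exact Real.sum_le_exp_of_nonneg (by positivity) _
  have hk : ((k.factorial : ℕ) : ℝ) * P⁻¹ ≤ 2 ^ k := by
    rw [← div_eq_mul_inv, div_le_iff₀ hP0, hPe]
    have hj : (j : ℕ) ≤ k := Nat.lt_succ_iff.1 j.2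
    have h1 := Nat.choose_mul_factorial_mul_factorial hj
    have h2 : k.choose (j : ℕ) ≤ 2 ^ k := Nat.choose_le_two_pow _ _
    have h3 : k.factorial ≤ 2 ^ k * ((j : ℕ).factorial * (k - (j : ℕ)).factorial) := by
      rw [← h1, mul_assoc]
      exact Nat.mul_le_mul_right _ h2
    exact_mod_cast h3
  rw [abs_mul, abs_of_nonneg (by positivity : (0 : ℝ) ≤ (k.factorial : ℝ) ^ (p + 1))]
  calc (k.factorial : ℝ) ^ (p + 1) * |A x L n j|
      ≤ (k.factorial : ℝ) ^ (p + 1) * ((P⁻¹) ^ p * 2 ^ ((k + 1) * p) * Real.exp n) :=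
        mul_le_mul_of_nonneg_left hA (by positivity)
    _ = (k.factorial : ℝ) * (((k.factorial : ℝ) * P⁻¹) ^ p * 2 ^ ((k + 1) * p)) * Real.exp n := by
        rw [mul_pow, pow_succ]
        ring
    _ ≤ (k.factorial : ℝ) * (2 ^ ((k + 1) * p) * 2 ^ ((k + 1) * p)) * Real.exp n := by
        have h1 : ((k.factorial : ℝ) * P⁻¹) ^ p ≤ 2 ^ ((k + 1) * p) := by
          rw [pow_mul]
          refine pow_le_pow_left₀ (by positivity) (hk.trans ?_) _
          exact pow_le_pow_right₀ (by norm_num) (by omega)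
        gcongr
    _ = (k.factorial : ℝ) * 4 ^ ((k + 1) * p) * Real.exp n := by
        rw [← mul_pow]
        norm_num

end Pool.Agent.Helper19.MT
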